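import Pool.Agent.Helper87.OUT2g.Defs
import Pool.Agent.Helper27.T5g.Basic
import Pool.Agent.Helper30.T5.Stat2
import Pool.Agent.Helper30.T5g.NLb
import Pool.Agent.Helper29.T5g.BufInst
import Pool.Agent.Helper99.T5g.OkF
import Mathlib.Analysis.Complex.ExponentialBounds

/-!
# T5g, line 5: numbers (N1) and (N5)
-/

set_option autoImplicit false

namespace Pool.Agent.Helper75.T5g

open Finset Pool.Agent.Helper27.T4
open Pool.Agent.Helper5.ET (bb era own cnt av Nj pr pr_prime pr_inj pre mask)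
open Pool.Agent.Helper37.T5g Pool.Agent.Helper84.T5g Pool.Agent.Helper57.T5
open Pool.Agent.Helper27.T5b Pool.Agent.Helper27.T5g
open Pool.Agent.Helper30.T5g Pool.Agent.Helper87.OUT2g
open Pool.Agent.Helper27.T5 (gw)
open Pool.Agent.Helper99.T5g (OkF)

variable {m : Sq} {k : ℕ}

/-! ## the newborn digits -/

theorem nc_sub_le (m : Sq) (k T l l' : ℕ) :
    nc m k T l ≤ nc m k T l' + (mL m k l - mL m k l') / Bq m T + 1 := by
  by_contra hc
  push Not at hc
  have hB := Bq_pos m T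
  obtain ⟨q, hq⟩ : ∃ q, q = (mL m k l - mL m k l') / Bq m T := ⟨_, rfl⟩
  rw [← hq] at hc
  set c := nc m k T l with hcd
  set c' := nc m k T l' with hcd'
  have h1 : c ≤ nn m k T := nc_le m k T l
  -- the digit `c' + 1` is not below `l'`, the digit `c` is below `l`
  have h2 : gi m k T c < l := (le_nc_iff (by omega) h1).1 le_rfl
  have h3 : ¬ gi m k T (c' + 1) < l' := fun h => by
    have := (le_nc_iff (T := T) (l := l') (n := c' + 1) (by omega) (by omega)).2 h
    omega
  have h4 := le_l1_of_gi h2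
  have h5 : l1 (ins m k) l' ≤ gy m T (c' + 1) := by
    by_contra h
    exact h3 (gi_lt_of (not_le.1 h))
  have h6 : mL m k l = l1 (ins m k) l := rfl
  have h7 : mL m k l' = l1 (ins m k) l' := rfl
  rw [← h6] at h4
  rw [← h7] at h5
  unfold gy at h4 h5
  have h8 : (c - (c' + 1)) * Bq m T ≤ mL m k l - mL m k l' := by
    obtain ⟨e, he⟩ : ∃ e, c = c' + 1 + e := ⟨c - (c' + 1), by omega⟩
    rw [he] at h4 ⊢
    rw [Nat.add_sub_cancel_left]
    rw [Nat.add_mul] at h4
    omega
  have h9 : c - (c' + 1) ≤ q := by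
    rw [hq]
    exact (Nat.le_div_iff_mul_le hB).2 h8
  omega

/-! ## the buffer digits -/

theorem RB_mono (m : Sq) : Monotone (RB m) := by
  intro s t h
  unfold RB
  exact Nat.mul_le_mul_left _ (Nat.div_le_div_right (SS_mono m (Nat.sub_le_sub_right h 1)))

theorem RB_le_SS (m : Sq) (s : ℕ) : RB m s ≤ SS m (s - 1) := by
  unfold RB
  omega

/-- a buffer digit lies before a border -/
theorem ow_none {i : ℕ} (h : ow (ins m k) own (ex m k) i = Sum.inr none) :
    ∃ j, l1 (ins m k) i = bb j ∧ beg (ins m k) (bb j) ≤ i ∧ i < pos (ins m k) (bb j) := by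
  rcases digit_cases (ins m k) i with h1 | ⟨r, hr, h1⟩
  · rw [h1, ow_pos] at h
    exact absurd h (by simp)
  · rw [h1, ow_beg hr] at h
    have h2 : ex m k (l1 (ins m k) i) r = none := Sum.inr_injective h
    have h3 : l1 (ins m k) i = bb (era (l1 (ins m k) i)) := by
      by_contra hc
      unfold ex at h2
      rw [if_neg hc] at h2
      exact absurd h2 (by simp)
    refine ⟨era (l1 (ins m k) i), h3, ?_, ?_⟩
    · rw [← h3]
      omega
    · rw [← h3, pos_eq]
      omega

/-- number of buffer digits with the index in `[l', l)` -/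
theorem none_sub_le (hm : m.Ok) {l' l : ℕ} {J : Finset ℕ}
    (hJ : ∀ j, mL m k l' ≤ bb j → bb j ≤ mL m k l → j ∈ J) {s : ℕ}
    (hs : ∀ j ∈ J, lv m k j ≤ s) :
    ct (ins m k) own (ex m k) (Sum.inr none) l ≤
      ct (ins m k) own (ex m k) (Sum.inr none) l' + J.card * RB m s := by
  have h1 : (range l).filter (fun i => ow (ins m k) own (ex m k) i = Sum.inr none) ⊆
      (range l').filter (fun i => ow (ins m k) own (ex m k) i = Sum.inr none) ∪
        J.biUnion (fun j => Ico (beg (ins m k) (bb j)) (pos (ins m k) (bb j))) := by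
    intro i hi
    rw [mem_filter, mem_range] at hi
    rw [mem_union]
    by_cases h2 : i < l'
    · left
      rw [mem_filter, mem_range]
      exact ⟨h2, hi.2⟩
    · right
      obtain ⟨j, a1, a2, a3⟩ := ow_none hi.2
      rw [mem_biUnion]
      refine ⟨j, hJ j ?_ ?_, mem_Ico.2 ⟨a2, a3⟩⟩
      · rw [← a1]
        exact l1_mono _ (not_lt.1 h2)
      · rw [← a1]
        exact l1_mono _ hi.1.le
  unfold ct
  refine (card_le_card h1).trans ((card_union_le _ _).trans (Nat.add_le_add_left ?_ _))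
  refine card_biUnion_le_card_mul _ _ _ (fun j hj => ?_)
  rw [Nat.card_Ico, pos_eq, Nat.add_sub_cancel_left, ins_bb hm]
  exact RB_mono m (hs j hj)

theorem bb_two (j : ℕ) : 2 * bb j ≤ bb (j + 2) := by
  have h1 := (bb_step j).1
  have h2 := (bb_step (j + 1)).1
  have h3 : bb (j + 2) = bb (j + 1 + 1) := rfl
  have h4 := bb_ge_pow j
  omega

theorem bb_exp (j : ℕ) : 2 ^ (j / 2) ≤ bb j := by
  induction j using Nat.strong_induction_on with
  | _ j ih =>
    rcases Nat.lt_or_ge j 2 with h | h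
    · have h1 : j / 2 = 0 := by omega
      rw [h1]
      exact le_trans (by norm_num) (bb_ge_pow j)
    · obtain ⟨i, rfl⟩ : ∃ i, j = i + 2 := ⟨j - 2, by omega⟩
      have h1 := ih i (by omega)
      have h2 : (i + 2) / 2 = i / 2 + 1 := by omega
      rw [h2, pow_succ]
      have := bb_two i
      omega

/-- number of the buffer digits -/
theorem none_le (hm : m.Ok) {l : ℕ} :
    ct (ins m k) own (ex m k) (Sum.inr none) l ≤ (era (mL m k l) + 1) * RB m (sL m k l) := by
  have h1 := none_sub_le (k := k) hm (l' := 0) (l := l) (J := range (era (mL m k l) + 1)) (s := sL m k l)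
    (fun j _ h => by
      rw [mem_range]
      have h2 : era (bb j) ≤ era (mL m k l) := era_mono h
      rw [era_bb] at h2
      omega)
    (fun j hj => by
      rw [mem_range] at hj
      exact (lv_mono hm k (Nat.lt_succ_iff.1 hj)).trans (lv_le_sv m k _))
  rwa [ct_zero, zero_add, card_range] at h1

/-- near pairs: at most one border -/
theorem none_near (hm : m.Ok) {l' l : ℕ} (h : l' ≤ l) (hl : bb 0 ≤ mL m k l')
    (hk : kt m k ≤ era (mL m k l')) (hn : Near m k l' l) :
    ct (ins m k) own (ex m k) (Sum.inr none) l ≤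
      ct (ins m k) own (ex m k) (Sum.inr none) l' + RB m (sL m k l) := by
  have h1 := none_sub_le (k := k) hm (l' := l') (l := l) (J := {era (mL m k l)}) (s := sL m k l)
    (fun j h1 h2 => by
      rw [mem_singleton]
      by_contra hc
      have h3 : era (bb j) ≤ era (mL m k l) := era_mono h2
      rw [era_bb] at h3
      have h4 : j + 1 ≤ era (mL m k l) := by omega
      have h5 : era (mL m k l') ≤ era (bb j) := era_mono h1
      rw [era_bb] at h5
      have h6 := ZZ_mono hm k h5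
      have h7 := (ZZ_len hm (hk.trans h5)).2
      have h8 := bb_add_len j
      have h9 : bb (era (mL m k l)) ≤ mL m k l :=
        (era_spec _ (hl.trans (l1_mono _ h))).1
      have h10 := bb_strictMono.monotone h4
      have h11 := ZZ_pos m k (era (mL m k l'))
      unfold Near at hn
      omega)
    (fun j hj => by
      rw [mem_singleton] at hj
      rw [hj]
      exact lv_le_sv m k _)
  rwa [card_singleton, one_mul] at h1

/-! ## the distance -/

theorem Nj_lower {y z : ℕ} (h : y ≤ z) : Nj y * (10 ^ 6) ^ (z - y) ≤ Nj z := by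
  obtain ⟨d, rfl⟩ := Nat.exists_eq_add_of_le h
  rw [Nat.add_sub_cancel_left]
  clear h
  induction d with
  | zero => simp
  | succ d ih =>
    rw [← add_assoc, Pool.Agent.Helper30.T5.Nj_succ, pow_succ, ← mul_assoc]
    exact Nat.mul_le_mul ih (million_le_pr _)

/-- the joint modulus -/
theorem Jn_le (hm : m.Ok) {l : ℕ} (s : ℕ) :
    Jn m k s l ≤ Nj (mL m k l) * 1000039 ^ ct (ins m k) own (ex m k) (Sum.inr none) l *
      QT m k (s + 1) := by
  unfold Jn NN
  rw [Fintype.prod_sum_type, Fin.prod_univ_succ (n := 3), mul_assoc]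
  apply Nat.mul_le_mul
  · apply le_of_eq
    show _ = ∏ f : Fin 3, pr f ^ cnt f (mL m k l)
    apply prod_congr rfl
    intro f _
    show pr f ^ ct (ins m k) own (ex m k) (Sum.inl f) l = _
    rw [ct_main]
    rfl
  · apply Nat.mul_le_mul
    · exact le_rfl
    · unfold QT
      apply prod_le_prod'
      intro f _
      show pz k (s + 1) f ^ ct (ins m k) own (ex m k) (Sum.inr (some (s + 1, f))) l ≤ QF m k (s + 1) f
      unfold QF
      exact Nat.pow_le_pow_right (Pool.Agent.Helper84.T5g.pz_prime k _ f).pos (ct_some_le_zf hm _ f l)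

/-- **the distance of a pair which is not void** -/
theorem dist_le (hm : m.Ok) (qc : ∀ t, m.q t = m.q 0) (kc : ∀ t, m.kap t = m.kap 0) (k : ℕ) :
    ∃ K0, ∀ l l', K0 ≤ l' → l' ≤ l →
    Same m k l' l → ¬ Vd m k l' l →
    mL m k l - mL m k l' ≤ 2 * SS m (sL m k l + 1) := by
  obtain ⟨t0, ht0⟩ := exists_mul_le_SS hm (BP k + 1)
  obtain ⟨l0, hl0⟩ := exists_late (m := m) (k := k) hm 0 0
  obtain ⟨l2, hl2⟩ := tendsto_l1 m k (bb (kt m (k + t0 + 2) + 1))
  obtain ⟨l3, hl3⟩ := Pool.Agent.Helper29.T5g.exists_buf hm qc kc k (C := 2)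
    (by calc 2 = 2 ^ 1 := rfl
      _ ≤ 2 ^ 300 := Nat.pow_le_pow_right (by norm_num) (by norm_num))
  refine ⟨l0 + l2 + l3, fun l l' h1 h2 hs hv => ?_⟩
  have h3 := hl0 l' (by omega)
  have h4 := hl2 l' (by omega)
  have hy' : bb 0 ≤ mL m k l' := h3.2.1
  -- `sL l' ≥ t0 + 1`
  have h5 : t0 + 1 ≤ sL m k l' := by
    have h6 : kt m (k + t0 + 2) + 1 ≤ era (mL m k l') := by
      have := era_mono h4
      rwa [era_bb] at this
    have h7 := lv_mono hm k h6
    rw [show k + t0 + 2 = k + t0 + 1 + 1 from rfl, lv_kt_succ hm (by omega)] at h7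
    have h8 := lv_le_sv m k (mL m k l')
    have h9 : sL m k l' = sv m k (mL m k l') := rfl
    omega
  set s := sL m k l' with hsd
  have hs' : sL m k l = s := hs.symm
  rw [hs']
  unfold Vd at hv
  push Not at hv
  have h7 : NL m k (l' + 1) ≤ BP k * NL m k l' := NL_succ_le m k l'
  have h8 : Jn m k s l' * RT m k s = NL m k l' := Jn_mul_RT (cpl_self hm hy')
  have h9 := Jn_le (k := k) hm (l := l') s
  have h10 : Nj (mL m k l') * (10 ^ 6) ^ (mL m k l - mL m k l') ≤ Nj (mL m k l) :=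
    Nj_lower (l1_mono _ h2)
  have h11 : Nm m k l = Nj (mL m k l) := rfl
  have h12 : 2 * ct (ins m k) own (ex m k) (Sum.inr none) l' ≤ SS m s :=
    (hl3 l' (by omega)).trans (SS_mono m (lv_le_sv m k (mL m k l')))
  set c := ct (ins m k) own (ex m k) (Sum.inr none) l' with hc
  have h14 : 1000039 ^ c ≤ (10 ^ 6) ^ (2 * c) := by
    rw [pow_mul]
    exact Nat.pow_le_pow_left (by norm_num) _
  have h15 : QT m k (s + 1) * RT m k s = RT m k (s + 1) := by
    rw [RT_succ, mul_comm]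
  have h16 : RT m k (s + 1) ≤ (10 ^ 6) ^ SS m (s + 1) := RT_le hm k (s + 1)
  have h17 : BP k ≤ (10 ^ 6) ^ BP k := (Nat.lt_pow_self (by norm_num)).le
  have hN : 0 < Nj (mL m k l') := NN_pos pr_prime _
  have h18 : Nj (mL m k l') * (10 ^ 6) ^ (mL m k l - mL m k l') <
      Nj (mL m k l') * (10 ^ 6) ^ (BP k + 2 * c + SS m (s + 1)) := by
    calc Nj (mL m k l') * (10 ^ 6) ^ (mL m k l - mL m k l') ≤ Nj (mL m k l) := h10
      _ < NL m k (l' + 1) := by rwa [h11] at hv
      _ ≤ BP k * (Jn m k s l' * RT m k s) := by rwa [h8]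
      _ ≤ BP k * (Nj (mL m k l') * 1000039 ^ c * QT m k (s + 1) * RT m k s) :=
          Nat.mul_le_mul_left _ (Nat.mul_le_mul_right _ h9)
      _ = Nj (mL m k l') * (BP k * 1000039 ^ c * (QT m k (s + 1) * RT m k s)) := by ring
      _ ≤ Nj (mL m k l') * ((10 ^ 6) ^ BP k * (10 ^ 6) ^ (2 * c) * (10 ^ 6) ^ SS m (s + 1)) := by
          rw [h15]
          exact Nat.mul_le_mul_left _ (Nat.mul_le_mul (Nat.mul_le_mul h17 h14) h16)
      _ = _ := by rw [← pow_add, ← pow_add]
  have h19 : mL m k l - mL m k l' < BP k + 2 * c + SS m (s + 1) :=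
    (Nat.pow_lt_pow_iff_right (by norm_num)).1 (lt_of_mul_lt_mul_left h18 (Nat.zero_le _))
  have h20 : 2 * c ≤ SS m s := h12
  have h21 := ht0 s (by omega)
  have h22 : BP k + 1 ≤ SS m s := le_trans (Nat.le_mul_of_pos_right _ (by omega)) h21
  have h23 := SS_succ_ge hm s
  have h24 : 100000 * SS m s ≤ SS m (s + 1) :=
    le_trans (Nat.mul_le_mul_right _ (by norm_num)) h23
  omega

/-! ## (N1) -/

/-- the extra digits between two near states which are not void -/
theorem extra_le (hm : m.Ok) (qc : ∀ t, m.q t = m.q 0) (kc : ∀ t, m.kap t = m.kap 0)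
    (gc : ∀ t, m.gr t = m.gr 0) (gq : m.gr 0 ≤ m.q 0) (k M : ℕ) (hM : 8 * M ≤ 2 ^ m.gr 0) :
    ∃ K0, ∀ l l', K0 ≤ l' → l' ≤ l →
    Near m k l' l → Same m k l' l → ¬ Vd m k l' l →
    M * (∑ i : Fin 4, (aJ m k (sL m k l) l (Sum.inr i) - aJ m k (sL m k l) l' (Sum.inr i)) + 1) ≤
      SS m (sL m k l) := by
  obtain ⟨K1, h1⟩ := dist_le hm qc kc k
  obtain ⟨t0, ht0⟩ : ∃ t0, ∀ t, t0 ≤ t → 24 * M ≤ SS m t := by
    refine ⟨24 * M, fun t ht => ?_⟩
    have h2 := aa_ge hm t
    have h6 : 24 * M < 2 ^ (24 * M) := Nat.lt_two_pow_self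
    have h7 : 2 ^ (24 * M) ≤ 2 ^ aa m t := Nat.pow_le_pow_right (by norm_num) (by omega)
    have h10 : SS m t = 2 ^ aa m t := rfl
    omega
  obtain ⟨l0, hl0⟩ := exists_late (m := m) (k := k) hm 0 0
  obtain ⟨l2, hl2⟩ := tendsto_l1 m k (bb (kt m (k + t0 + 2) + 1))
  refine ⟨K1 + l0 + l2, fun l l' h3 h4 hn hs hv => ?_⟩
  have h5 := hl0 l' (by omega)
  have h6 := hl2 l' (by omega)
  have hy' : bb 0 ≤ mL m k l' := h5.2.1
  have hD := h1 l l' (by omega) h4 hs hv
  have hsk : t0 + 1 ≤ sL m k l' ∧ k ≤ sL m k l' := by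
    have h7 : kt m (k + t0 + 2) + 1 ≤ era (mL m k l') := by
      have := era_mono h6
      rwa [era_bb] at this
    have h8 := lv_mono hm k h7
    rw [show k + t0 + 2 = k + t0 + 1 + 1 from rfl, lv_kt_succ hm (by omega)] at h8
    have h9 := lv_le_sv m k (mL m k l')
    have h10 : sL m k l' = sv m k (mL m k l') := rfl
    omega
  have hs' : sL m k l' = sL m k l := hs
  rw [hs'] at hsk
  obtain ⟨u, hu⟩ : ∃ u, sL m k l = u + 1 := ⟨sL m k l - 1, by omega⟩
  have h7 := none_near hm h4 hy' h5.2.2.1 hn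
  have h8 := RB_le_SS m (sL m k l)
  have h9 := nc_sub_le m k (sL m k l + 1) l l'
  have h10 := sum_ct hm (show k < sL m k l + 1 by omega) l
  have h11 := sum_ct hm (show k < sL m k l + 1 by omega) l'
  have e1 : ∑ i : Fin 4, (aJ m k (sL m k l) l (Sum.inr i) - aJ m k (sL m k l) l' (Sum.inr i)) =
      (ct (ins m k) own (ex m k) (Sum.inr none) l - ct (ins m k) own (ex m k) (Sum.inr none) l') +
      ∑ f : Fin 3, (ct (ins m k) own (ex m k) (Sum.inr (some (sL m k l + 1, f))) l -
        ct (ins m k) own (ex m k) (Sum.inr (some (sL m k l + 1, f))) l') := by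
    rw [Fin.sum_univ_succ (n := 3)]
    rfl
  have e2 : ∑ f : Fin 3, (ct (ins m k) own (ex m k) (Sum.inr (some (sL m k l + 1, f))) l -
      ct (ins m k) own (ex m k) (Sum.inr (some (sL m k l + 1, f))) l') =
      nc m k (sL m k l + 1) l - nc m k (sL m k l + 1) l' := by
    rw [sum_tsub_distrib _ (fun f _ => ct_mono _ h4), h10, h11]
  rw [e1, e2]
  -- the number of newborn digits
  have h12 : (mL m k l - mL m k l') / Bq m (sL m k l + 1) * (8 * M) ≤ SS m (sL m k l) := by
    have h13 : (mL m k l - mL m k l') / Bq m (sL m k l + 1) ≤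
        2 * SS m (sL m k l + 1) / Bq m (sL m k l + 1) := Nat.div_le_div_right hD
    have h14 : 2 * SS m (sL m k l + 1) / Bq m (sL m k l + 1) * (8 * M) ≤ SS m (sL m k l) := by
      have h16 : 2 * SS m (sL m k l + 1) / Bq m (sL m k l + 1) * Bq m (sL m k l + 1) ≤
          2 * SS m (sL m k l + 1) := Nat.div_mul_le_self _ _
      rw [Bq_eq] at h16 ⊢
      rw [SS_succ] at h16 ⊢
      rw [gc (sL m k l + 1)] at h16 ⊢
      set A := SS m (sL m k l) with hA
      set a := m.q (sL m k l) with ha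
      set b := m.gr 0 with hb
      set Q := 2 * (A * 2 ^ (a + 1)) / 2 ^ (11 + a + b) with hQ
      have e3 : 2 ^ (11 + a + b) = 2 ^ (a + 2) * (2 ^ 9 * 2 ^ b) := by
        rw [← pow_add, ← pow_add]
        congr 1
        omega
      have e4 : 2 * (A * 2 ^ (a + 1)) = 2 ^ (a + 2) * A := by ring
      have h17 : 2 ^ (a + 2) * (Q * (2 ^ 9 * 2 ^ b)) ≤ 2 ^ (a + 2) * A := by
        calc 2 ^ (a + 2) * (Q * (2 ^ 9 * 2 ^ b)) = Q * 2 ^ (11 + a + b) := by
              rw [e3]
              ring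
          _ ≤ 2 * (A * 2 ^ (a + 1)) := h16
          _ = _ := e4
      have h18 : Q * (2 ^ 9 * 2 ^ b) ≤ A := le_of_mul_le_mul_left h17 (by positivity)
      refine le_trans (Nat.mul_le_mul_left Q ?_) h18
      omega
    exact le_trans (Nat.mul_le_mul_right _ h13) h14
  have h13 : SS m (sL m k l - 1) * (8 * M) ≤ SS m (sL m k l) := by
    rw [hu, Nat.add_sub_cancel, SS_succ]
    apply Nat.mul_le_mul_left
    rw [qc u, pow_succ]
    have := Nat.pow_le_pow_right (show 0 < 2 by norm_num) gq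
    omega
  have h14 := ht0 (sL m k l) (by omega)
  have h15 : (ct (ins m k) own (ex m k) (Sum.inr none) l -
      ct (ins m k) own (ex m k) (Sum.inr none) l') +
      (nc m k (sL m k l + 1) l - nc m k (sL m k l + 1) l') + 1 ≤
      SS m (sL m k l - 1) + (mL m k l - mL m k l') / Bq m (sL m k l + 1) + 2 := by
    generalize (mL m k l - mL m k l') / Bq m (sL m k l + 1) = q at *
    omega
  refine le_trans (Nat.mul_le_mul_left M h15) ?_
  generalize (mL m k l - mL m k l') / Bq m (sL m k l + 1) = q at *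
  generalize SS m (sL m k l - 1) = r at *
  have e5 : M * (r + q + 2) = M * r + M * q + 2 * M := by ring
  have e6 : q * (8 * M) = 8 * (M * q) := by ring
  have e7 : r * (8 * M) = 8 * (M * r) := by ring
  rw [e5]
  rw [e6] at h12
  rw [e7] at h13
  omega

/-- **(N1)** the number of labels of a near pair which is not void -/
theorem log_LB_le (hF : OkF m) : ∃ K0, ∀ l l', K0 ≤ l' → l' ≤ l →
    Near m m.k l' l → Same m m.k l' l → ¬ Vd m m.k l' l →
    Real.log (LB m m.k l l') ≤ (SS m (sL m m.k l) : ℝ) / 1000 := by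
  have hm := hF.toOk
  have hbig := hF.big
  have hgrq := hF.grq
  set k := m.k with hkd
  obtain ⟨B, hBd⟩ : ∃ B : ℕ, B = BP k := ⟨_, rfl⟩
  have hB : Real.log (BP k) ≤ B := by
    rw [hBd]
    exact Real.log_le_self (Nat.cast_nonneg _)
  have hBP0 : 0 < BP k := Pool.Agent.Helper99.T5g.BP_pos' k
  obtain ⟨K1, h1⟩ := extra_le hm hF.qc hF.kc hF.gc (by omega) k (1000 * (16 * (B + 1)))
    (by
      refine le_trans ?_ hbig
      rw [hBd]
      calc 8 * (1000 * (16 * (BP k + 1))) ≤ 2 ^ 18 * BP k := by norm_num; omega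
        _ ≤ 2 ^ 40 * BP k := Nat.mul_le_mul_right _ (by norm_num))
  refine ⟨K1, fun l l' h2 h3 h4 h5 h6 => ?_⟩
  have h7 := h1 l l' h2 h3 h4 h5 h6
  set s := sL m k l with hs
  have hBP : 1 < BP k := lt_of_lt_of_le (by norm_num) (buf_lt_BP k).le
  have h8 : ∀ i : Fin 4, Real.log ((2 * pJ k s (Sum.inr i) ^
      ((aJ m k s l (Sum.inr i) - aJ m k s l' (Sum.inr i)) / 2 + 3) : ℕ) : ℝ) ≤
      1 + ((aJ m k s l (Sum.inr i) - aJ m k s l' (Sum.inr i) : ℕ) + 3) * (B : ℝ) := by
    intro i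
    have h9 : pJ k s (Sum.inr i) ≤ BP k := by
      refine Fin.cases ?_ (fun f => ?_) i
      · exact (buf_lt_BP k).le
      · exact pz_le k (s + 1) f
    have h10 : 0 < pJ k s (Sum.inr i) := (pJ_prime k s _).pos
    have h11 : Real.log (pJ k s (Sum.inr i)) ≤ B :=
      (Real.log_le_log (by exact_mod_cast h10) (by exact_mod_cast h9)).trans hB
    have h12 : (0 : ℝ) ≤ Real.log (pJ k s (Sum.inr i)) :=
      Real.log_nonneg (by exact_mod_cast h10)
    push_cast
    rw [Real.log_mul (by norm_num) (by positivity), Real.log_pow]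
    have h13 : Real.log 2 ≤ 1 := by
      have := Real.log_two_lt_d9
      linarith
    apply add_le_add h13
    have h14 : (((aJ m k s l (Sum.inr i) - aJ m k s l' (Sum.inr i)) / 2 + 3 : ℕ) : ℝ) ≤
        ((aJ m k s l (Sum.inr i) - aJ m k s l' (Sum.inr i) : ℕ) : ℝ) + 3 := by
      have : (aJ m k s l (Sum.inr i) - aJ m k s l' (Sum.inr i)) / 2 + 3 ≤
        (aJ m k s l (Sum.inr i) - aJ m k s l' (Sum.inr i)) + 3 := by omega
      exact_mod_cast this
    exact mul_le_mul h14 h11 h12 (by positivity)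
  have h9 : Real.log (LB m k l l') ≤ ∑ i : Fin 4,
      (1 + ((aJ m k s l (Sum.inr i) - aJ m k s l' (Sum.inr i) : ℕ) + 3) * (B : ℝ)) := by
    unfold LB
    rw [← hs, Nat.cast_prod, Real.log_prod]
    · exact sum_le_sum (fun i _ => h8 i)
    · intro i _
      have h10 : 0 < pJ k s (Sum.inr i) := (pJ_prime k s _).pos
      positivity
  refine h9.trans ?_
  rw [sum_add_distrib, ← sum_mul, sum_add_distrib]
  simp only [sum_const, card_univ, Fintype.card_fin, nsmul_eq_mul]
  have h10 : ((1000 * (16 * (B + 1)) * (∑ i : Fin 4,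
      (aJ m k s l (Sum.inr i) - aJ m k s l' (Sum.inr i)) + 1) : ℕ) : ℝ) ≤ SS m s := by
    exact_mod_cast h7
  push_cast at h10
  rw [le_div_iff₀ (by norm_num)]
  refine le_trans ?_ h10
  have h11 : (0 : ℝ) ≤ B := Nat.cast_nonneg _
  have h12 : (0 : ℝ) ≤ ∑ i : Fin 4,
      ((aJ m k s l (Sum.inr i) - aJ m k s l' (Sum.inr i) : ℕ) : ℝ) :=
    sum_nonneg (fun i _ => Nat.cast_nonneg _)
  push_cast
  nlinarith [mul_nonneg h11 h12]

/-! ## (N5) -/

/-- **(N5)** the index against the size of the outermost static level -/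
theorem exists_le_SS_sL : ∃ E : ℕ, ∀ m : Sq, OkF m → ∃ l0 : ℕ, ∀ l, l0 ≤ l →
    l ≤ 2 ^ (E * m.q 0) * SS m (sL m m.k l) := by
  refine ⟨4, fun m hF => ?_⟩
  have hm := hF.toOk
  obtain ⟨l0, h0⟩ := exists_late (m := m) (k := m.k) hm 0 0
  refine ⟨l0 + 1, fun l hl => ?_⟩
  obtain ⟨_, h2, h3, _, h5⟩ := h0 l (by omega)
  have hy : bb 0 ≤ mL m m.k l := h2
  have h6 : mL m m.k l < 4 * (2 ^ m.kap (sL m m.k l + 1) * SS m (sL m m.k l + 2)) :=
    Pool.Agent.Helper30.T5g.lt_SS hm m.k hy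
  have h9 : l ≤ 2 * mL m m.k l := by
    have : mL m m.k l = l1 (ins m m.k) l := rfl
    omega
  have hkap := hF.kaple
  have hq := hm.q 0
  set s := sL m m.k l with hs
  have h10 : SS m (s + 2) = SS m s * 2 ^ (2 * m.q 0 + 2) := by
    rw [show s + 2 = s + 1 + 1 from rfl, SS_succ m (s + 1), SS_succ m s, hF.qc (s + 1), hF.qc s,
      mul_assoc, ← pow_add]
    congr 2
    omega
  rw [hF.kc (s + 1), h10] at h6
  have h11 : l ≤ 2 ^ (3 + m.kap 0 + (2 * m.q 0 + 2)) * SS m s := by
    have e : 2 ^ (3 + m.kap 0 + (2 * m.q 0 + 2)) = 8 * 2 ^ m.kap 0 * 2 ^ (2 * m.q 0 + 2) := by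
      rw [pow_add, pow_add]
      norm_num
    rw [e]
    have e2 : 8 * 2 ^ m.kap 0 * 2 ^ (2 * m.q 0 + 2) * SS m s =
      2 * (4 * (2 ^ m.kap 0 * (SS m s * 2 ^ (2 * m.q 0 + 2)))) := by ring
    omega
  exact h11.trans (Nat.mul_le_mul_right _ (Nat.pow_le_pow_right (by norm_num) (by omega)))

end Pool.Agent.Helper75.T5g
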